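import Pool.Agent.W844.DO.Defs

/-!
# The equation for the scale function and its Laplace transform
-/

set_option autoImplicit false

open MeasureTheory Filter Topology Set

namespace Pool.Agent.W947.DO

open Pool.Agent.W844.DO

theorem bdd (v : ℝ → ℝ) (hv : Continuous v) (hc : Csl v) (R : ℝ) :
    ∃ C : ℝ, 0 ≤ C ∧ ∀ s, s ≤ R → |v s| ≤ C := by
  obtain ⟨C, hC⟩ := (isCompact_Icc (a := (0 : ℝ)) (b := R)).exists_bound_of_continuousOn
    hv.continuousOn
  refine ⟨max C 0, le_max_right _ _, fun s hs => ?_⟩
  rcases le_or_gt s 0 with h | h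
  · rw [hc s h, abs_zero]
    exact le_max_right _ _
  · exact (hC s ⟨h.le, hs⟩).trans (le_max_left _ _)

theorem cv_csl (u v : ℝ → ℝ) (hu : Csl u) (hv : Csl v) : Csl (cv u v) := by
  intro x hx
  unfold cv
  have h : (fun y => u y * v (x - y)) = fun _ => 0 := by
    funext y
    rcases le_or_gt y 0 with h | h
    · rw [hu y h, zero_mul]
    · rw [hv (x - y) (by linarith), mul_zero]
  rw [h, integral_zero]

theorem cv_cont (u v : ℝ → ℝ) (hu : Csl u) (hui : Integrable u) (hv : Csl v)
    (hvc : Continuous v) : Continuous (cv u v) := by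
  rw [continuous_iff_continuousAt]
  intro x0
  obtain ⟨C, hC0, hC⟩ := bdd v hvc hv (x0 + 1)
  unfold cv
  refine continuousAt_of_dominated (bound := fun y => |u y| * C) ?_ ?_ ?_ ?_
  · refine Eventually.of_forall fun x => ?_
    exact hui.aestronglyMeasurable.mul
      (hvc.comp (continuous_const.sub continuous_id)).aestronglyMeasurable
  · filter_upwards [Iio_mem_nhds (show x0 < x0 + 1 by linarith)] with x hx
    refine Eventually.of_forall fun y => ?_
    rw [Real.norm_eq_abs, abs_mul]
    rcases le_or_gt y 0 with h | h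
    · rw [hu y h, abs_zero, zero_mul, zero_mul]
    · refine mul_le_mul_of_nonneg_left (hC _ ?_) (abs_nonneg _)
      have : x < x0 + 1 := hx
      linarith
  · exact hui.abs.mul_const C
  · refine Eventually.of_forall fun y => ?_
    exact (continuous_const.mul (hvc.comp (continuous_id.sub continuous_const))).continuousAt

theorem int_cv (u v : ℝ → ℝ) (hu : Csl u) (huc : Continuous u) (hv : Csl v)
    (hvc : Continuous v) (x : ℝ) : Integrable fun y => u y * v (x - y) := by
  refine Continuous.integrable_of_hasCompactSupport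
    (huc.mul (hvc.comp (continuous_const.sub continuous_id))) ?_
  refine HasCompactSupport.intro (isCompact_Icc (a := (0 : ℝ)) (b := x)) fun y hy => ?_
  rcases le_or_gt y 0 with h | h
  · rw [hu y h, zero_mul]
  · rcases le_or_gt y x with h2 | h2
    · exact absurd ⟨h.le, h2⟩ hy
    · rw [hv (x - y) (by linarith), mul_zero]

theorem assoc (u v w : ℝ → ℝ) (hu : Csl u) (hui : Integrable u) (hv : Csl v)
    (hvc : Continuous v) (hw : Csl w) (hwc : Continuous w) (x : ℝ) :
    cv (cv u v) w x = cv u (cv v w) x := by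
  obtain ⟨C, hC0, hC⟩ := bdd v hvc hv |x|
  obtain ⟨D, hD0, hD⟩ := bdd w hwc hw |x|
  have hint : Integrable (Function.uncurry fun z y : ℝ => u y * v (z - y) * w (x - z))
      (volume.prod volume) := by
    have hb : Integrable (fun p : ℝ × ℝ => (Icc (0 : ℝ) |x|).indicator (fun _ => C * D) p.1 *
        |u p.2|) (volume.prod volume) := by
      refine Integrable.mul_prod (f := (Icc (0 : ℝ) |x|).indicator (fun _ => C * D))
        (g := fun y => |u y|) ?_ hui.abs
      exact (continuous_const.integrableOn_Icc).integrable_indicator measurableSet_Icc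
    refine hb.mono' ?_ ?_
    · have h1 : AEStronglyMeasurable (fun p : ℝ × ℝ => u p.2) (volume.prod volume) :=
        hui.aestronglyMeasurable.comp_snd
      have h2 : Continuous fun p : ℝ × ℝ => v (p.1 - p.2) :=
        hvc.comp (continuous_fst.sub continuous_snd)
      have h3 : Continuous fun p : ℝ × ℝ => w (x - p.1) :=
        hwc.comp (continuous_const.sub continuous_fst)
      exact (h1.mul h2.aestronglyMeasurable).mul h3.aestronglyMeasurable
    · refine Eventually.of_forall fun p => ?_
      obtain ⟨z, y⟩ := p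
      simp only [Function.uncurry_apply_pair]
      have hnn : 0 ≤ (Icc (0 : ℝ) |x|).indicator (fun _ => C * D) z * |u y| := by
        refine mul_nonneg ?_ (abs_nonneg _)
        exact indicator_nonneg (fun _ _ => mul_nonneg hC0 hD0) z
      rcases le_or_gt y 0 with h | h
      · rw [hu y h, zero_mul, zero_mul, norm_zero, abs_zero, mul_zero]
      · rcases le_or_gt z 0 with h2 | h2
        · rw [hv (z - y) (by linarith), mul_zero, zero_mul, norm_zero]
          exact hnn
        · rcases le_or_gt z |x| with h3 | h3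
          · rw [indicator_of_mem (show z ∈ Icc (0 : ℝ) |x| from ⟨h2.le, h3⟩), Real.norm_eq_abs,
              abs_mul, abs_mul]
            have h4 := hC (z - y) (by linarith)
            have h5 := hD (x - z) (by linarith [le_abs_self x])
            calc |u y| * |v (z - y)| * |w (x - z)| ≤ |u y| * C * D :=
                  mul_le_mul (mul_le_mul_of_nonneg_left h4 (abs_nonneg _)) h5 (abs_nonneg _)
                    (mul_nonneg (abs_nonneg _) hC0)
              _ = C * D * |u y| := by ring
          · rw [hw (x - z) (by linarith [le_abs_self x]), mul_zero, norm_zero]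
            exact hnn
  have h1 : cv (cv u v) w x = ∫ z, ∫ y, u y * v (z - y) * w (x - z) := by
    unfold cv
    refine integral_congr_ae (Eventually.of_forall fun z => ?_)
    simp only
    rw [← integral_mul_const]
  rw [h1, integral_integral_swap hint]
  unfold cv
  refine integral_congr_ae (Eventually.of_forall fun y => ?_)
  simp only
  have h2 : (fun z => u y * v (z - y) * w (x - z)) = fun z => (fun t => u y * (v t * w (x - y - t)))
      (z - y) := by
    funext z
    simp only
    rw [show x - y - (z - y) = x - z by ring]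
    ring
  rw [h2, integral_sub_right_eq_self (fun t => u y * (v t * w (x - y - t))) y, integral_const_mul]

theorem lap_cv (u v : ℝ → ℝ) (hu : Integrable u) (hv : Integrable v) :
    Integrable (cv u v) ∧ ∫ x, cv u v x = (∫ x, u x) * ∫ x, v x := by
  constructor
  · exact hu.integrable_convolution (ContinuousLinearMap.mul ℝ ℝ) hv
  · exact integral_convolution (ContinuousLinearMap.mul ℝ ℝ) hu hv

theorem cv_exp (β : ℝ) (u v : ℝ → ℝ) (x : ℝ) :
    cv (fun y => Real.exp (-β * y) * u y) (fun y => Real.exp (-β * y) * v y) x =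
      Real.exp (-β * x) * cv u v x := by
  unfold cv
  rw [← integral_const_mul]
  refine integral_congr_ae (Eventually.of_forall fun y => ?_)
  simp only
  have h : Real.exp (-β * x) = Real.exp (-β * y) * Real.exp (-β * (x - y)) := by
    rw [← Real.exp_add]
    congr 1
    ring
  rw [h]
  ring

/-! ### the explicit functions -/

theorem Eq_csl : Csl Pool.Agent.W844.DO.Eq := by
  intro x hx
  unfold Pool.Agent.W844.DO.Eq
  rw [if_neg (not_lt.2 hx)]

theorem G_pos : 0 < Real.Gamma (5 / 4) := Real.Gamma_pos_of_pos (by norm_num)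

theorem Eq_cont : Continuous Pool.Agent.W844.DO.Eq := by
  have h : Pool.Agent.W844.DO.Eq = fun x : ℝ => (max x 0) ^ ((1 : ℝ) / 4) / Real.Gamma (5 / 4) := by
    funext x
    unfold Pool.Agent.W844.DO.Eq
    split_ifs with h
    · rw [max_eq_left h.le]
    · rw [max_eq_right (not_lt.1 h), Real.zero_rpow (by norm_num), zero_div]
  rw [h]
  exact ((continuous_id.max continuous_const).rpow_const fun x => Or.inr (by norm_num)).div_const _

theorem Eq_nn (x : ℝ) : 0 ≤ Pool.Agent.W844.DO.Eq x := by
  unfold Pool.Agent.W844.DO.Eq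
  have := G_pos
  split_ifs with h
  · positivity
  · exact le_rfl

theorem Eq_le (x : ℝ) : Pool.Agent.W844.DO.Eq x ≤ 1 / Real.Gamma (5 / 4) * Real.exp (1 * x) := by
  have hG := G_pos
  unfold Pool.Agent.W844.DO.Eq
  split_ifs with h
  · rw [one_div_mul_eq_div]
    refine div_le_div_of_nonneg_right ?_ hG.le
    have h1 : x ^ ((1 : ℝ) / 4) ≤ 1 + x := by
      rcases le_or_gt x 1 with h2 | h2
      · have := Real.rpow_le_one h.le h2 (show (0 : ℝ) ≤ 1 / 4 by norm_num)
        linarith
      · have := Real.rpow_le_rpow_of_exponent_le h2.le (show (1 : ℝ) / 4 ≤ 1 by norm_num)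
        rw [Real.rpow_one] at this
        linarith
    have h2 := Real.add_one_le_exp x
    rw [one_mul]
    linarith
  · positivity

theorem rh_csl : Csl rh := by
  intro x hx
  unfold rh
  rw [if_neg]
  intro h
  linarith [h.1]

theorem rh_nn (x : ℝ) : 0 ≤ rh x := by
  unfold rh
  split_ifs with h
  · exact Real.rpow_nonneg (by linarith [h.1]) _
  · exact le_rfl

theorem rh_int : Integrable rh := by
  have h1 : IntervalIntegrable (fun s : ℝ => s ^ (-(3 : ℝ) / 4)) volume 0 1 :=
    intervalIntegral.intervalIntegrable_rpow' (by norm_num)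
  rw [intervalIntegrable_iff_integrableOn_Ioo_of_le (by norm_num)] at h1
  have h2 : Integrable ((Ioo (0 : ℝ) 1).indicator fun s : ℝ => s ^ (-(3 : ℝ) / 4)) :=
    h1.integrable_indicator measurableSet_Ioo
  have h3 := h2.comp_sub_right 1
  refine h3.congr (Eventually.of_forall fun y => ?_)
  simp only
  unfold rh
  by_cases h : 1 < y ∧ y < 2
  · rw [if_pos h, indicator_of_mem]
    exact ⟨by linarith [h.1], by linarith [h.2]⟩
  · rw [if_neg h, indicator_of_notMem]
    intro h4
    exact h ⟨by linarith [h4.1], by linarith [h4.2]⟩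

theorem cvE_nn (x : ℝ) : 0 ≤ cv rh Pool.Agent.W844.DO.Eq x :=
  integral_nonneg fun y => mul_nonneg (rh_nn y) (Eq_nn _)

theorem cvE_le (x : ℝ) : cv rh Pool.Agent.W844.DO.Eq x ≤
    (∫ y, rh y) * (1 / Real.Gamma (5 / 4)) * Real.exp (1 * x) := by
  have hG := G_pos
  unfold cv
  rw [mul_assoc, ← integral_mul_const]
  refine integral_mono_of_nonneg (Eventually.of_forall fun y => mul_nonneg (rh_nn y) (Eq_nn _))
    (rh_int.mul_const _) (Eventually.of_forall fun y => ?_)
  simp only
  rcases le_or_gt y 0 with h | h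
  · rw [rh_csl y h, zero_mul, zero_mul]
  · refine mul_le_mul_of_nonneg_left ((Eq_le _).trans ?_) (rh_nn y)
    refine mul_le_mul_of_nonneg_left (Real.exp_le_exp.2 (by linarith)) (by positivity)

/-- exponentially damped integrable functions -/
theorem damp (f : ℝ → ℝ) (A b β : ℝ) (hf : Continuous f) (hc : Csl f)
    (hA : ∀ x, |f x| ≤ A * Real.exp (b * x)) (hb : b < β) :
    Integrable fun x => Real.exp (-β * x) * f x := by
  have h1 : IntegrableOn (fun x : ℝ => A * Real.exp (-(β - b) * x)) (Ioi 0) :=
    (exp_neg_integrableOn_Ioi 0 (by linarith)).const_mul A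
  have h2 := h1.integrable_indicator measurableSet_Ioi
  refine h2.mono' ?_ (Eventually.of_forall fun x => ?_)
  · refine (Continuous.mul ?_ hf).aestronglyMeasurable
    fun_prop
  · rcases le_or_gt x 0 with h | h
    · rw [hc x h, mul_zero, norm_zero, indicator_of_notMem (by simpa using h)]
    · rw [indicator_of_mem (by simpa using h), norm_mul, Real.norm_eq_abs, Real.norm_eq_abs,
        abs_of_pos (Real.exp_pos _)]
      calc Real.exp (-β * x) * |f x| ≤ Real.exp (-β * x) * (A * Real.exp (b * x)) :=
            mul_le_mul_of_nonneg_left (hA x) (Real.exp_pos _).le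
        _ = A * Real.exp (-(β - b) * x) := by
            rw [mul_left_comm, ← Real.exp_add]
            congr 2
            ring

theorem Eq_lap (β : ℝ) (hβ : 0 < β) :
    ∫ x, Real.exp (-β * x) * Pool.Agent.W844.DO.Eq x = 1 / β ^ ((5 : ℝ) / 4) := by
  have hG := G_pos
  have h1 : ∫ x in Ioi (0 : ℝ), Real.exp (-β * x) * Pool.Agent.W844.DO.Eq x =
      ∫ x, Real.exp (-β * x) * Pool.Agent.W844.DO.Eq x := by
    refine setIntegral_eq_integral_of_forall_compl_eq_zero fun x hx => ?_
    rw [Eq_csl x (not_lt.1 hx), mul_zero]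
  rw [← h1]
  have h2 : ∫ x in Ioi (0 : ℝ), Real.exp (-β * x) * Pool.Agent.W844.DO.Eq x =
      ∫ x in Ioi (0 : ℝ), 1 / Real.Gamma (5 / 4) * (x ^ ((5 / 4 : ℝ) - 1) * Real.exp (-(β * x))) := by
    refine setIntegral_congr_fun measurableSet_Ioi fun x hx => ?_
    have hx0 : 0 < x := hx
    unfold Pool.Agent.W844.DO.Eq
    rw [if_pos hx0, show (5 / 4 : ℝ) - 1 = 1 / 4 by norm_num, neg_mul]
    ring
  rw [h2, integral_const_mul, Real.integral_rpow_mul_exp_neg_mul_Ioi (by norm_num) hβ]
  rw [Real.div_rpow zero_le_one hβ.le, Real.one_rpow]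
  field_simp

theorem sW (hV : S_VOL) (hN : S_NU) : S_W := by
  have hC : 0 < Cc := hN.2.2.2.2.1
  have hG := G_pos
  have hE := Eq_cont
  set E := Pool.Agent.W844.DO.Eq with hEdef
  set P := cv rh E with hP
  have hPc : Continuous P := cv_cont rh E rh_csl rh_int Eq_csl hE
  have hPs : Csl P := cv_csl rh E rh_csl Eq_csl
  have hR0 : 0 ≤ ∫ y, rh y := integral_nonneg rh_nn
  set A : ℝ := (4 + ∫ y, rh y) * (1 / Real.Gamma (5 / 4)) / Cc with hA
  obtain ⟨W, A', b', hW1, hW2, hW3, hW4⟩ := hV (fun x => E x / Cc) (fun x => (4 * E x - P x) / Cc) A 1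
    (hE.div_const _) (((continuous_const.mul hE).sub hPc).div_const _)
    (fun x hx => by simp only; rw [hEdef, Eq_csl x hx, zero_div])
    (fun x hx => by simp only; rw [hPs x hx, hEdef, Eq_csl x hx]; simp)
    (fun x => by
      rw [abs_of_nonneg (div_nonneg (Eq_nn x) hC.le), hA, div_mul_eq_mul_div]
      refine div_le_div_of_nonneg_right ((Eq_le x).trans ?_) hC.le
      refine mul_le_mul_of_nonneg_right ?_ (Real.exp_pos _).le
      refine le_mul_of_one_le_left (by positivity) (by linarith))
    (fun x => by
      rw [abs_div, abs_of_pos hC, hA, div_mul_eq_mul_div]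
      refine div_le_div_of_nonneg_right ?_ hC.le
      have h1 := Eq_le x
      have h2 := Eq_nn x
      have h3 := cvE_le x
      have h4 := cvE_nn x
      have h5 : (4 + ∫ y, rh y) * (1 / Real.Gamma (5 / 4)) * Real.exp (1 * x) =
        4 * (1 / Real.Gamma (5 / 4) * Real.exp (1 * x)) +
          (∫ y, rh y) * (1 / Real.Gamma (5 / 4)) * Real.exp (1 * x) := by ring
      rw [h5, abs_le]
      have h6 : 0 ≤ (1 / Real.Gamma (5 / 4) * Real.exp (1 * x)) := by positivity
      have h7 : 0 ≤ (∫ y, rh y) * (1 / Real.Gamma (5 / 4)) * Real.exp (1 * x) := by positivity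
      constructor
      · linarith
      · linarith)
  have hEW := cv_cont
  -- the equation
  have heq : ∀ x, Cc * W x = E x + 4 * cv E W x - cv rh (cv E W) x := by
    intro x
    have h1 : cv (fun x => (4 * E x - P x) / Cc) W x = (4 * cv E W x - cv P W x) / Cc := by
      unfold cv
      rw [← integral_const_mul, ← integral_sub ((int_cv E W Eq_csl hE hW2 hW1 x).const_mul 4)
        (int_cv P W hPs hPc hW2 hW1 x), ← integral_div]
      refine integral_congr_ae (Eventually.of_forall fun y => ?_)
      simp only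
      ring
    rw [hW4 x, h1, hP, assoc rh E W rh_csl rh_int Eq_csl hE hW2 hW1 x]
    field_simp
    ring
  refine ⟨W, A', b', hW1, hW2, hW3, heq, max b' 1, fun β hβ => ?_⟩
  have hβb : b' < β := (le_max_left _ _).trans_lt hβ
  have hβ1 : 1 < β := (le_max_right _ _).trans_lt hβ
  have hWi := damp W A' b' β hW1 hW2 hW3 hβb
  have hEi := damp E (1 / Real.Gamma (5 / 4)) 1 β hE Eq_csl
    (fun x => by rw [abs_of_nonneg (Eq_nn x)]; exact Eq_le x) hβ1
  have hri : Integrable fun x => Real.exp (-β * x) * rh x := by
    refine rh_int.mono' ?_ (Eventually.of_forall fun x => ?_)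
    · refine AEStronglyMeasurable.mul ?_ rh_int.aestronglyMeasurable
      exact Continuous.aestronglyMeasurable (by fun_prop)
    · rw [norm_mul, Real.norm_eq_abs, Real.norm_eq_abs, abs_of_pos (Real.exp_pos _),
        abs_of_nonneg (rh_nn x)]
      rcases le_or_gt x 0 with h | h
      · rw [rh_csl x h, mul_zero]
      · refine mul_le_of_le_one_left (rh_nn x) (Real.exp_le_one_iff.2 ?_)
        have : 0 < β * x := by positivity
        linarith
  obtain ⟨h1, h2⟩ := lap_cv _ _ hEi hWi
  obtain ⟨h3, h4⟩ := lap_cv _ _ hri h1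
  have h5 : (cv (fun y => Real.exp (-β * y) * E y) fun y => Real.exp (-β * y) * W y) =
      fun x => Real.exp (-β * x) * cv E W x := by
    funext x
    exact cv_exp β E W x
  rw [h5] at h1 h2 h3 h4
  have h6 : (cv (fun y => Real.exp (-β * y) * rh y) fun x => Real.exp (-β * x) * cv E W x) =
      fun x => Real.exp (-β * x) * cv rh (cv E W) x := by
    funext x
    exact cv_exp β rh (cv E W) x
  rw [h6] at h3 h4
  have h7 : Cc * ∫ x, Real.exp (-β * x) * W x = (∫ x, Real.exp (-β * x) * E x) +
      4 * (∫ x, Real.exp (-β * x) * cv E W x) - ∫ x, Real.exp (-β * x) * cv rh (cv E W) x := by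
    have hadd : Integrable fun a => Real.exp (-β * a) * E a +
        4 * (Real.exp (-β * a) * cv E W a) := hEi.add (h1.const_mul 4)
    rw [← integral_const_mul, ← integral_const_mul, ← integral_add hEi (h1.const_mul 4),
      ← integral_sub hadd h3]
    refine integral_congr_ae (Eventually.of_forall fun x => ?_)
    simp only
    have := heq x
    linear_combination Real.exp (-β * x) * this
  rw [h4, h2, Eq_lap β (by linarith)] at h7
  have h8 : ∫ x in Ioi (0 : ℝ), Real.exp (-β * x) * W x = ∫ x, Real.exp (-β * x) * W x := by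
    refine setIntegral_eq_integral_of_forall_compl_eq_zero fun x hx => ?_
    rw [hW2 x (not_lt.1 hx), mul_zero]
  refine ⟨hWi.integrableOn, ?_⟩
  rw [h8]
  have h9 : ∫ y, Real.exp (-β * y) * rh y = ∫ y, rh y * Real.exp (-(β * y)) := by
    refine integral_congr_ae (Eventually.of_forall fun y => ?_)
    simp only
    rw [neg_mul, mul_comm]
  rw [h9] at h7
  have hβp : 0 < β ^ ((5 : ℝ) / 4) := Real.rpow_pos_of_pos (by linarith) _
  generalize ∫ x, Real.exp (-β * x) * W x = w at *
  generalize ∫ y, rh y * Real.exp (-(β * y)) = r at *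
  generalize β ^ ((5 : ℝ) / 4) = B at *
  have h10 : w * (Cc * B + r - 4) = 1 := by
    field_simp at h7
    linear_combination h7
  have h11 : Cc * B + r - 4 ≠ 0 := by
    intro h
    rw [h, mul_zero] at h10
    exact zero_ne_one h10
  rw [eq_div_iff h11]
  exact h10

end Pool.Agent.W947.DO
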